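import Pool.Agent.BE01.Stmts

/-!
# Squad BE01, module RES: solution of the equation at one order, harmonic by harmonic
-/

namespace Pool.Agent.BE01.H19

open Set Filter Topology
open scoped InnerProductSpace
open Pool.Agent.BE01

noncomputable section

/-! ## Trigonometric integrals -/

theorem int_sin_cos (j : ℕ) :
    ∫ s in (0 : ℝ)..(2 * Real.pi), Real.sin s * Real.cos (j * s) = 0 := by
  have h := intervalIntegral.integral_comp_sub_left (a := 0) (b := 2 * Real.pi)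
    (fun s => Real.sin s * Real.cos (j * s)) (2 * Real.pi)
  rw [sub_self, sub_zero] at h
  have h2 : ∀ s : ℝ, Real.sin (2 * Real.pi - s) * Real.cos (j * (2 * Real.pi - s)) =
      -(Real.sin s * Real.cos (j * s)) := by
    intro s
    rw [Real.sin_two_pi_sub, mul_sub, Real.cos_nat_mul_two_pi_sub]
    ring
  simp only [h2, intervalIntegral.integral_neg] at h
  linarith

theorem int_cos (k : ℤ) (hk : k ≠ 0) :
    ∫ s in (0 : ℝ)..(2 * Real.pi), Real.cos (k * s) = 0 := by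
  have hk' : (k : ℝ) ≠ 0 := by exact_mod_cast hk
  rw [intervalIntegral.integral_comp_mul_left (fun s => Real.cos s) hk', integral_cos, mul_zero,
    Real.sin_zero, sub_zero]
  have : Real.sin ((k : ℝ) * (2 * Real.pi)) = 0 := by
    have h := Real.sin_int_mul_pi (2 * k)
    push_cast at h
    rw [← h]
    congr 1
    ring
  rw [this, smul_zero]

theorem int_sin_sin (j : ℕ) (hj : j ≠ 1) :
    ∫ s in (0 : ℝ)..(2 * Real.pi), Real.sin s * Real.sin (j * s) = 0 := by
  have h1 : ∀ s : ℝ, Real.sin s * Real.sin (j * s) =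
      (1 / 2) * Real.cos (((j : ℤ) - 1 : ℤ) * s) - (1 / 2) * Real.cos (((j : ℤ) + 1 : ℤ) * s) := by
    intro s
    have e1 : ((((j : ℤ) - 1 : ℤ) : ℝ) * s) = j * s - s := by push_cast; ring
    have e2 : ((((j : ℤ) + 1 : ℤ) : ℝ) * s) = j * s + s := by push_cast; ring
    rw [e1, e2, Real.cos_sub, Real.cos_add]
    ring
  simp only [h1]
  rw [intervalIntegral.integral_sub, intervalIntegral.integral_const_mul,
    intervalIntegral.integral_const_mul, int_cos _ (by omega), int_cos _ (by omega)]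
  · ring
  · exact (Continuous.intervalIntegrable (by fun_prop) _ _)
  · exact (Continuous.intervalIntegrable (by fun_prop) _ _)

theorem int_sin_one :
    ∫ s in (0 : ℝ)..(2 * Real.pi), Real.sin s * Real.sin ((1 : ℕ) * s) = Real.pi := by
  have h1 : ∀ s : ℝ, Real.sin s * Real.sin ((1 : ℕ) * s) = Real.sin s ^ 2 := by
    intro s
    rw [Nat.cast_one, one_mul, sq]
  simp only [h1]
  rw [integral_sin_sq]
  simp

section

variable {H : Type} [NormedAddCommGroup H] [InnerProductSpace ℝ H]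

theorem sc_add (φ : H) {F G : ℝ → H} (hF : Continuous F) (hG : Continuous G) :
    sc φ (fun ψ => F ψ + G ψ) = sc φ F + sc φ G := by
  unfold sc
  have h : (∫ s in (0 : ℝ)..(2 * Real.pi), Real.sin s * ⟪F s + G s, φ⟫_ℝ) =
      (∫ s in (0 : ℝ)..(2 * Real.pi), Real.sin s * ⟪F s, φ⟫_ℝ) +
        ∫ s in (0 : ℝ)..(2 * Real.pi), Real.sin s * ⟪G s, φ⟫_ℝ := by
    rw [← intervalIntegral.integral_add]
    · refine intervalIntegral.integral_congr fun s _ => ?_
      rw [inner_add_left]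
      ring
    · exact (Real.continuous_sin.mul (hF.inner continuous_const)).intervalIntegrable _ _
    · exact (Real.continuous_sin.mul (hG.inner continuous_const)).intervalIntegrable _ _
  rw [h]
  ring

theorem sc_smul (φ : H) (c : ℝ) (F : ℝ → H) : sc φ (fun ψ => c • F ψ) = c * sc φ F := by
  unfold sc
  have h : (∫ s in (0 : ℝ)..(2 * Real.pi), Real.sin s * ⟪c • F s, φ⟫_ℝ) =
      c * ∫ s in (0 : ℝ)..(2 * Real.pi), Real.sin s * ⟪F s, φ⟫_ℝ := by
    rw [← intervalIntegral.integral_const_mul]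
    refine intervalIntegral.integral_congr fun s _ => ?_
    rw [real_inner_smul_left]
    ring
  rw [h]
  ring

theorem sc_zero (φ : H) : sc φ (fun _ => (0 : H)) = 0 := by
  unfold sc
  simp

theorem sc_gen (φ m : H) (c : ℝ → ℝ) :
    sc φ (fun ψ => c ψ • m) =
      (1 / Real.pi) * (∫ s in (0 : ℝ)..(2 * Real.pi), Real.sin s * c s) *
        (⟪m, φ⟫_ℝ / ⟪φ, φ⟫_ℝ) := by
  unfold sc
  have h : (∫ s in (0 : ℝ)..(2 * Real.pi), Real.sin s * ⟪c s • m, φ⟫_ℝ) =
      (∫ s in (0 : ℝ)..(2 * Real.pi), Real.sin s * c s) * ⟪m, φ⟫_ℝ := by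
    rw [← intervalIntegral.integral_mul_const]
    refine intervalIntegral.integral_congr fun s _ => ?_
    rw [real_inner_smul_left]
    ring
  rw [h]
  ring

/-- The odd part with respect to the shift by `π`. -/
def op (F : ℝ → H) (ψ : ℝ) : H := (1 / 2 : ℝ) • (F ψ - F (ψ + Real.pi))

theorem op_cont {F : ℝ → H} (hF : Continuous F) : Continuous (op F) := by
  unfold op
  exact (hF.sub (hF.comp (continuous_id.add continuous_const))).const_smul _

theorem op_odd {F : ℝ → H} (hF : ∀ ψ, F (ψ + Real.pi) = - F ψ) : op F = F := by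
  funext ψ
  unfold op
  rw [hF, sub_neg_eq_add, ← two_smul ℝ, smul_smul]
  norm_num

theorem op_even {F : ℝ → H} (hF : ∀ ψ, F (ψ + Real.pi) = F ψ) : op F = fun _ => 0 := by
  funext ψ
  unfold op
  rw [hF, sub_self, smul_zero]

/-- The claim for a general trigonometric polynomial. -/
def Pd (S : H →L[ℝ] H) (ω : ℝ) (φ : H) (M : ℕ) (F : ℝ → H) : Prop :=
  Continuous F ∧ ∃ (b' : ℝ) (q q' q'' : ℝ → H),
    q ∈ TP H M ∧ (∀ ψ, q (ψ + Real.pi) = - q ψ) ∧
    (∀ ψ, HasDerivAt q (q' ψ) ψ) ∧ (∀ ψ, HasDerivAt q' (q'' ψ) ψ) ∧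
    ∀ ψ, (ω ^ 2) • S (q'' ψ) + q ψ =
      - (op F ψ - (2 * ω * b' * Real.cos ψ) • φ - (sc φ (op F) * Real.sin ψ) • φ)

theorem Pd.add {S : H →L[ℝ] H} {ω : ℝ} {φ : H} {M : ℕ} {F G : ℝ → H} (hF : Pd S ω φ M F)
    (hG : Pd S ω φ M G) : Pd S ω φ M (F + G) := by
  obtain ⟨hFc, b, q, q', q'', h1, h2, h3, h4, h5⟩ := hF
  obtain ⟨hGc, c, r, r', r'', k1, k2, k3, k4, k5⟩ := hG
  have ho : op (F + G) = fun ψ => op F ψ + op G ψ := by
    funext ψ
    unfold op
    rw [Pi.add_apply, Pi.add_apply, ← smul_add]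
    congr 1
    abel
  refine ⟨hFc.add hGc, b + c, q + r, q' + r', q'' + r'', Submodule.add_mem _ h1 k1, ?_,
    fun ψ => (h3 ψ).add (k3 ψ), fun ψ => (h4 ψ).add (k4 ψ), ?_⟩
  · intro ψ
    rw [Pi.add_apply, Pi.add_apply, h2, k2]
    abel
  · intro ψ
    rw [ho, sc_add φ (op_cont hFc) (op_cont hGc)]
    have e1 := h5 ψ
    have e2 := k5 ψ
    have e3 : (ω ^ 2) • S ((q'' + r'') ψ) + (q + r) ψ =
        ((ω ^ 2) • S (q'' ψ) + q ψ) + ((ω ^ 2) • S (r'' ψ) + r ψ) := by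
      rw [Pi.add_apply, Pi.add_apply, map_add, smul_add]
      abel
    rw [e3, e1, e2]
    have e4 : (2 * ω * (b + c) * Real.cos ψ) • φ =
        (2 * ω * b * Real.cos ψ) • φ + (2 * ω * c * Real.cos ψ) • φ := by
      rw [← add_smul]
      congr 1
      ring
    have e5 : ((sc φ (op F) + sc φ (op G)) * Real.sin ψ) • φ =
        (sc φ (op F) * Real.sin ψ) • φ + (sc φ (op G) * Real.sin ψ) • φ := by
      rw [← add_smul]
      congr 1
      ring
    rw [e4, e5]
    beta_reduce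
    abel

theorem Pd.smul {S : H →L[ℝ] H} {ω : ℝ} {φ : H} {M : ℕ} {F : ℝ → H} (a : ℝ)
    (hF : Pd S ω φ M F) : Pd S ω φ M (a • F) := by
  obtain ⟨hFc, b, q, q', q'', h1, h2, h3, h4, h5⟩ := hF
  have ho : op (a • F) = fun ψ => a • op F ψ := by
    funext ψ
    unfold op
    rw [Pi.smul_apply, Pi.smul_apply, ← smul_sub, smul_comm]
  refine ⟨hFc.const_smul a, a * b, a • q, a • q', a • q'', Submodule.smul_mem _ _ h1, ?_,
    fun ψ => (h3 ψ).const_smul a, fun ψ => (h4 ψ).const_smul a, ?_⟩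
  · intro ψ
    rw [Pi.smul_apply, Pi.smul_apply, h2, smul_neg]
  · intro ψ
    rw [ho, sc_smul]
    have e3 : (ω ^ 2) • S ((a • q'') ψ) + (a • q) ψ = a • ((ω ^ 2) • S (q'' ψ) + q ψ) := by
      rw [Pi.smul_apply, Pi.smul_apply, map_smul, smul_add, smul_comm]
    rw [e3, h5, smul_neg, smul_sub, smul_sub, smul_smul, smul_smul]
    congr 3
    · ring_nf
    · ring_nf

theorem Pd.zero (S : H →L[ℝ] H) (ω : ℝ) (φ : H) (M : ℕ) {F : ℝ → H} (hc : Continuous F)
    (h : op F = fun _ => 0) : Pd S ω φ M F := by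
  refine ⟨hc, 0, 0, 0, 0, Submodule.zero_mem _, fun ψ => by simp, fun ψ => ?_, fun ψ => ?_, ?_⟩
  · exact hasDerivAt_const ψ (0 : H)
  · exact hasDerivAt_const ψ (0 : H)
  · intro ψ
    rw [h, sc_zero]
    simp

theorem Pd.gen {S : H →L[ℝ] H} {ω : ℝ} {φ : H} {M : ℕ} (m Q : H) (c c' : ℝ → ℝ) (j : ℕ)
    (b' : ℝ) (hc : ∀ ψ, c (ψ + Real.pi) = - c ψ) (h1 : ∀ ψ, HasDerivAt c (c' ψ) ψ)
    (h2 : ∀ ψ, HasDerivAt c' (-((j : ℝ) ^ 2 * c ψ)) ψ)
    (h3 : (fun ψ => c ψ • Q) ∈ TP H M)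
    (h4 : ∀ ψ, c ψ • (Q - ((j : ℝ) ^ 2 * ω ^ 2) • S Q) =
      - (c ψ • m - (2 * ω * b' * Real.cos ψ) • φ -
        (sc φ (fun ψ => c ψ • m) * Real.sin ψ) • φ)) :
    Pd S ω φ M (fun ψ => c ψ • m) := by
  have hcc : Continuous c := continuous_iff_continuousAt.2 fun ψ => (h1 ψ).continuousAt
  have ho : op (fun ψ => c ψ • m) = fun ψ => c ψ • m := by
    refine op_odd fun ψ => ?_
    rw [hc, neg_smul]
  refine ⟨hcc.smul continuous_const, b', fun ψ => c ψ • Q, fun ψ => c' ψ • Q,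
    fun ψ => (-((j : ℝ) ^ 2 * c ψ)) • Q, h3, ?_, fun ψ => (h1 ψ).smul_const Q,
    fun ψ => (h2 ψ).smul_const Q, ?_⟩
  · intro ψ
    beta_reduce
    rw [hc, neg_smul]
  · intro ψ
    rw [ho]
    rw [← h4 ψ, map_smul, smul_smul, smul_sub, smul_smul, neg_mul_eq_neg_mul, neg_mul_comm,
      sub_eq_add_neg, ← neg_smul, add_comm]
    congr 2
    ring

end

theorem cos_shift {j : ℕ} (hj : Odd j) (ψ : ℝ) :
    Real.cos (j * (ψ + Real.pi)) = - Real.cos (j * ψ) := by
  obtain ⟨k, rfl⟩ := hj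
  have : ((2 * k + 1 : ℕ) : ℝ) * (ψ + Real.pi) =
      ((2 * k + 1 : ℕ) : ℝ) * ψ + Real.pi + (k : ℕ) * (2 * Real.pi) := by
    push_cast
    ring
  rw [this, Real.cos_add_nat_mul_two_pi, Real.cos_add_pi]

theorem sin_shift {j : ℕ} (hj : Odd j) (ψ : ℝ) :
    Real.sin (j * (ψ + Real.pi)) = - Real.sin (j * ψ) := by
  obtain ⟨k, rfl⟩ := hj
  have : ((2 * k + 1 : ℕ) : ℝ) * (ψ + Real.pi) =
      ((2 * k + 1 : ℕ) : ℝ) * ψ + Real.pi + (k : ℕ) * (2 * Real.pi) := by
    push_cast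
    ring
  rw [this, Real.sin_add_nat_mul_two_pi, Real.sin_add_pi]

theorem cos_shift_even {j : ℕ} (hj : Even j) (ψ : ℝ) :
    Real.cos (j * (ψ + Real.pi)) = Real.cos (j * ψ) := by
  obtain ⟨k, rfl⟩ := hj
  have : ((k + k : ℕ) : ℝ) * (ψ + Real.pi) = ((k + k : ℕ) : ℝ) * ψ + (k : ℕ) * (2 * Real.pi) := by
    push_cast
    ring
  rw [this, Real.cos_add_nat_mul_two_pi]

theorem sin_shift_even {j : ℕ} (hj : Even j) (ψ : ℝ) :
    Real.sin (j * (ψ + Real.pi)) = Real.sin (j * ψ) := by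
  obtain ⟨k, rfl⟩ := hj
  have : ((k + k : ℕ) : ℝ) * (ψ + Real.pi) = ((k + k : ℕ) : ℝ) * ψ + (k : ℕ) * (2 * Real.pi) := by
    push_cast
    ring
  rw [this, Real.sin_add_nat_mul_two_pi]

theorem dcos (j : ℕ) (ψ : ℝ) :
    HasDerivAt (fun ψ : ℝ => Real.cos (j * ψ)) (-((j : ℝ) * Real.sin (j * ψ))) ψ := by
  have h : HasDerivAt (fun ψ : ℝ => (j : ℝ) * ψ) (j : ℝ) ψ := by
    simpa using (hasDerivAt_id ψ).const_mul (j : ℝ)
  have h2 := h.cos
  have e : -((j : ℝ) * Real.sin (j * ψ)) = -Real.sin (j * ψ) * j := by ring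
  rw [e]
  exact h2

theorem dsin (j : ℕ) (ψ : ℝ) :
    HasDerivAt (fun ψ : ℝ => Real.sin (j * ψ)) ((j : ℝ) * Real.cos (j * ψ)) ψ := by
  have h : HasDerivAt (fun ψ : ℝ => (j : ℝ) * ψ) (j : ℝ) ψ := by
    simpa using (hasDerivAt_id ψ).const_mul (j : ℝ)
  have h2 := h.sin
  have e : (j : ℝ) * Real.cos (j * ψ) = Real.cos (j * ψ) * j := by ring
  rw [e]
  exact h2

theorem ddcos (j : ℕ) (ψ : ℝ) :
    HasDerivAt (fun ψ : ℝ => -((j : ℝ) * Real.sin (j * ψ)))
      (-((j : ℝ) ^ 2 * Real.cos (j * ψ))) ψ := by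
  have h := ((dsin j ψ).const_mul (j : ℝ)).neg
  have e : -((j : ℝ) ^ 2 * Real.cos (j * ψ)) = -((j : ℝ) * ((j : ℝ) * Real.cos (j * ψ))) := by ring
  rw [e]
  exact h

theorem ddsin (j : ℕ) (ψ : ℝ) :
    HasDerivAt (fun ψ : ℝ => (j : ℝ) * Real.cos (j * ψ))
      (-((j : ℝ) ^ 2 * Real.sin (j * ψ))) ψ := by
  have h := (dcos j ψ).const_mul (j : ℝ)
  have e : -((j : ℝ) ^ 2 * Real.sin (j * ψ)) = (j : ℝ) * -((j : ℝ) * Real.sin (j * ψ)) := by ring
  rw [e]
  exact h

theorem res : ResStmt := by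
  intro H _ _ S ω φ M hω hφ hS F hF hodd
  have hφφ : ⟪φ, φ⟫_ℝ ≠ 0 := inner_self_ne_zero.2 hφ
  have key : ∀ F ∈ TP H M, Pd S ω φ M F := by
    intro F hF
    unfold TP at hF
    induction hF using Submodule.span_induction with
    | mem G hG =>
      obtain ⟨j, hj, m, hG⟩ := hG
      rcases Nat.even_or_odd j with he | ho
      · rcases hG with rfl | rfl
        · refine Pd.zero S ω φ M (by fun_prop) (op_even fun ψ => ?_)
          rw [cos_shift_even he]
        · refine Pd.zero S ω φ M (by fun_prop) (op_even fun ψ => ?_)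
          rw [sin_shift_even he]
      · have hmc : ∀ Q : H, (fun ψ : ℝ => Real.cos (j * ψ) • Q) ∈ TP H M := fun Q =>
          Submodule.subset_span ⟨j, hj, Q, Or.inl rfl⟩
        have hms : ∀ Q : H, (fun ψ : ℝ => Real.sin (j * ψ) • Q) ∈ TP H M := fun Q =>
          Submodule.subset_span ⟨j, hj, Q, Or.inr rfl⟩
        by_cases h3 : 3 ≤ j
        · obtain ⟨Q, hQ⟩ := hS.odd j ho h3 hj (-m)
          rcases hG with rfl | rfl
          · refine Pd.gen m Q (fun ψ => Real.cos (j * ψ)) _ j 0 (cos_shift ho) (dcos j) (ddcos j)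
              (hmc Q) ?_
            intro ψ
            rw [hQ, sc_gen, int_sin_cos]
            simp
          · refine Pd.gen m Q (fun ψ => Real.sin (j * ψ)) _ j 0 (sin_shift ho) (dsin j) (ddsin j)
              (hms Q) ?_
            intro ψ
            rw [hQ, sc_gen, int_sin_sin j (by omega)]
            simp
        · have hj1 : j = 1 := by
            obtain ⟨k, hk⟩ := ho
            omega
          subst hj1
          set μ : ℝ := ⟪m, φ⟫_ℝ / ⟪φ, φ⟫_ℝ with hμ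
          have horth : ⟪-(m - μ • φ), φ⟫_ℝ = 0 := by
            rw [inner_neg_left, inner_sub_left, real_inner_smul_left, hμ,
              div_mul_cancel₀ _ hφφ, sub_self, neg_zero]
          obtain ⟨Q, hQ⟩ := hS.one _ horth
          have hQ' : Q - (((1 : ℕ) : ℝ) ^ 2 * ω ^ 2) • S Q = -(m - μ • φ) := by
            rw [← hQ]
            norm_num
          rcases hG with rfl | rfl
          · refine Pd.gen m Q (fun ψ => Real.cos ((1 : ℕ) * ψ)) _ 1 (μ / (2 * ω)) (cos_shift ho)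
              (dcos 1) (ddcos 1) (hmc Q) ?_
            intro ψ
            rw [hQ', sc_gen, int_sin_cos]
            have e : 2 * ω * (μ / (2 * ω)) * Real.cos ψ = Real.cos ψ * μ := by
              field_simp
            rw [e, Nat.cast_one, one_mul, mul_zero, zero_mul, zero_mul, zero_smul, sub_zero,
              smul_neg, smul_sub, smul_smul]
          · refine Pd.gen m Q (fun ψ => Real.sin ((1 : ℕ) * ψ)) _ 1 0 (sin_shift ho)
              (dsin 1) (ddsin 1) (hms Q) ?_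
            intro ψ
            rw [hQ', sc_gen, int_sin_one]
            have e : (1 / Real.pi) * Real.pi * (⟪m, φ⟫_ℝ / ⟪φ, φ⟫_ℝ) * Real.sin ψ =
                Real.sin ψ * μ := by
              rw [one_div, inv_mul_cancel₀ Real.pi_ne_zero, one_mul, mul_comm]
            rw [e, Nat.cast_one, one_mul, mul_zero, zero_mul, zero_smul, sub_zero,
              smul_neg, smul_sub, smul_smul]
    | zero => exact Pd.zero S ω φ M continuous_const (op_even fun ψ => rfl)
    | add x y _ _ hx hy => exact hx.add hy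
    | smul a x _ hx => exact hx.smul a
  obtain ⟨_, b', q, q', q'', h1, h2, h3, h4, h5⟩ := key F hF
  refine ⟨b', q, q', q'', h1, h2, h3, h4, ?_⟩
  intro ψ
  rw [h5, op_odd hodd]

end

end Pool.Agent.BE01.H19
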