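import Pool.Agent.BE01.StmtsS

/-!
# Squad BE01 (MP_be01ff_an), module EIG: the differential equation of the radial eigenfunctions
-/

namespace Pool.Agent.BE01.H19

open Set Filter Topology MeasureTheory

theorem hasDerivAt_qq (d : ℕ) (hd : 1 ≤ d) (hs : 0 < sg d) (r : ℝ) (hr : 0 < r) :
    HasDerivAt (qq d) (-((d : ℝ) - 1) / r * qq d r) r := by
  obtain ⟨m, rfl⟩ : ∃ m, d = m + 1 := ⟨d - 1, by omega⟩
  have h1 : HasDerivAt (fun x : ℝ => sg (m + 1) * x ^ m) (sg (m + 1) * (m * r ^ (m - 1))) r :=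
    (hasDerivAt_pow m r).const_mul _
  have hne : sg (m + 1) * r ^ m ≠ 0 := by positivity
  have h2 := h1.inv hne
  have e1 : qq (m + 1) = (fun x : ℝ => sg (m + 1) * x ^ m)⁻¹ := by
    funext x
    show 1 / (sg (m + 1) * x ^ (m + 1 - 1)) = (sg (m + 1) * x ^ m)⁻¹
    rw [Nat.add_sub_cancel, one_div]
  have e2 : -(((m + 1 : ℕ) : ℝ) - 1) / r * qq (m + 1) r =
      -(sg (m + 1) * (m * r ^ (m - 1))) / (sg (m + 1) * r ^ m) ^ 2 := by
    have e3 : qq (m + 1) r = 1 / (sg (m + 1) * r ^ m) := by
      show 1 / (sg (m + 1) * r ^ (m + 1 - 1)) = _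
      rw [Nat.add_sub_cancel]
    rw [e3]
    rcases Nat.eq_zero_or_pos m with h0 | h0
    · subst h0
      simp
    · obtain ⟨j, rfl⟩ : ∃ j, m = j + 1 := ⟨m - 1, by omega⟩
      rw [Nat.add_sub_cancel]
      push_cast
      rw [div_mul_div_comm, div_eq_div_iff (by positivity) (by positivity)]
      ring
  rw [e1, ← e1, e2]
  rw [e1]
  exact h2

theorem eig : PolStmt → EigStmt := by
  intro hpol d r0 r1 h D SX l k hd h0 h01 O hk
  obtain ⟨hsg, hfin, -, -, hint⟩ := hpol d r0 r1 h hd h0 h01
  set F : ℝ → ℝ := fun r => l * SX k (projIcc r0 r1 h r) with hF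
  have hFc : Continuous F := by
    have : Continuous (SX k : Ic r0 r1 → ℝ) := (SX k).continuous
    exact continuous_const.mul (this.comp continuous_projIcc)
  have hGc : Continuous (fun t : ℝ => t ^ (d - 1) * F t) := (continuous_pow _).mul hFc
  set Φ : ℝ → ℝ := fun r => kc k - sg d * ∫ t in r0..r, t ^ (d - 1) * F t with hΦ
  have hΦd : ∀ r, HasDerivAt Φ (-(sg d * (r ^ (d - 1) * F r))) r := by
    intro r
    have h1 : HasDerivAt (fun u => ∫ t in r0..u, t ^ (d - 1) * F t) (r ^ (d - 1) * F r) r :=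
      intervalIntegral.integral_hasDerivAt_right (hGc.intervalIntegrable _ _)
        (hGc.stronglyMeasurableAtFilter _ _) hGc.continuousAt
    exact (h1.const_mul (sg d)).const_sub (kc k)
  have hΦc : Continuous Φ := continuous_iff_continuousAt.2 fun r => (hΦd r).continuousAt
  -- the flux
  have hflx : ∀ r ∈ Icc r0 r1, flx k r = Φ r := by
    intro r hr
    have hcont : Continuous (fun s : Ic r0 r1 => l * SX k s) :=
      continuous_const.mul (SX k).continuous
    have hset : MeasurableSet {s : Ic r0 r1 | (s : ℝ) ≤ r} :=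
      measurableSet_le measurable_subtype_coe measurable_const
    have e1 : KK k r = ∫ s, ({s : Ic r0 r1 | (s : ℝ) ≤ r}).indicator
        (fun s => l * SX k s) s ∂(nu d h) := by
      rw [KK, integral_indicator hset]
      exact integral_congr_ae (ae_restrict_of_ae hk)
    have hbd : ∃ C, ∀ᵐ s ∂(nu d h), |({s : Ic r0 r1 | (s : ℝ) ≤ r}).indicator
        (fun s => l * SX k s) s| ≤ C := by
      refine ⟨|l| * ‖SX k‖, Eventually.of_forall fun s => ?_⟩
      by_cases hs : s ∈ {s : Ic r0 r1 | (s : ℝ) ≤ r}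
      · rw [indicator_of_mem hs, abs_mul]
        exact mul_le_mul_of_nonneg_left ((SX k).norm_coe_le_norm s) (abs_nonneg _)
      · rw [indicator_of_notMem hs, abs_zero]
        positivity
    have e2 := hint (({s : Ic r0 r1 | (s : ℝ) ≤ r}).indicator (fun s => l * SX k s))
      (hcont.stronglyMeasurable.indicator hset) (Or.inl hbd)
    have e3 : ∫ t in r0..r1, t ^ (d - 1) * ({s : Ic r0 r1 | (s : ℝ) ≤ r}).indicator
        (fun s => l * SX k s) (projIcc r0 r1 h t) = ∫ t in r0..r, t ^ (d - 1) * F t := by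
      have i1 : ∀ t ∈ Ioc r0 r, t ^ (d - 1) * ({s : Ic r0 r1 | (s : ℝ) ≤ r}).indicator
          (fun s => l * SX k s) (projIcc r0 r1 h t) = t ^ (d - 1) * F t := by
        intro t ht
        have hm : t ∈ Icc r0 r1 := ⟨ht.1.le, ht.2.trans hr.2⟩
        rw [indicator_of_mem]
        show ((projIcc r0 r1 h t : Ic r0 r1) : ℝ) ≤ r
        rw [projIcc_of_mem h hm]
        exact ht.2
      have i2 : ∀ t ∈ Ioc r r1, t ^ (d - 1) * ({s : Ic r0 r1 | (s : ℝ) ≤ r}).indicator
          (fun s => l * SX k s) (projIcc r0 r1 h t) = 0 := by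
        intro t ht
        have hm : t ∈ Icc r0 r1 := ⟨hr.1.trans ht.1.le, ht.2⟩
        rw [indicator_of_notMem, mul_zero]
        show ¬ ((projIcc r0 r1 h t : Ic r0 r1) : ℝ) ≤ r
        rw [projIcc_of_mem h hm]
        exact not_le.2 ht.1
      have j1 : IntervalIntegrable (fun t : ℝ => t ^ (d - 1) *
          ({s : Ic r0 r1 | (s : ℝ) ≤ r}).indicator (fun s => l * SX k s) (projIcc r0 r1 h t))
          volume r0 r := by
        refine (hGc.intervalIntegrable r0 r).congr ?_
        rw [uIoc_of_le hr.1]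
        intro t ht
        exact (i1 t ht).symm
      have j2 : IntervalIntegrable (fun t : ℝ => t ^ (d - 1) *
          ({s : Ic r0 r1 | (s : ℝ) ≤ r}).indicator (fun s => l * SX k s) (projIcc r0 r1 h t))
          volume r r1 := by
        refine (intervalIntegrable_const (c := (0 : ℝ))).congr ?_
        rw [uIoc_of_le hr.2]
        intro t ht
        exact (i2 t ht).symm
      rw [← intervalIntegral.integral_add_adjacent_intervals j1 j2,
        intervalIntegral.integral_of_le hr.1, intervalIntegral.integral_of_le hr.2,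
        intervalIntegral.integral_of_le hr.1, setIntegral_congr_fun measurableSet_Ioc i1,
        setIntegral_congr_fun (g := fun _ => (0 : ℝ)) measurableSet_Ioc i2]
      simp
    rw [flx, e1, e2, e3]
  -- the solution
  set g : ℝ → ℝ := fun r => ∫ s in r0..r, qq d s * Φ s with hg
  have hqc : ∀ r, 0 < r → ContinuousAt (qq d) r := fun r hr =>
    (hasDerivAt_qq d hd hsg r hr).continuousAt
  have hqm : StronglyMeasurable (fun s => qq d s * Φ s) := by
    have : Measurable (qq d) := by
      unfold qq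
      fun_prop
    exact (this.mul hΦc.measurable).stronglyMeasurable
  have hgd : ∀ r, r0 ≤ r → HasDerivAt g (qq d r * Φ r) r := by
    intro r hr
    apply intervalIntegral.integral_hasDerivAt_right
    · apply ContinuousOn.intervalIntegrable
      rw [uIcc_of_le hr]
      intro s hs
      exact ((hqc s (h0.trans_le hs.1)).mul hΦc.continuousAt).continuousWithinAt
    · exact hqm.stronglyMeasurableAtFilter
    · exact (hqc r (h0.trans_le hr)).mul hΦc.continuousAt
  have hgX : ∀ r : Ic r0 r1, SX k r = g r := by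
    intro r
    rw [O.SX_eq, hg]
    apply intervalIntegral.integral_congr
    intro s hs
    rw [uIcc_of_le r.2.1] at hs
    show qq d s * flx k s = qq d s * Φ s
    rw [hflx s ⟨hs.1, hs.2.trans r.2.2⟩]
  have hFg : ∀ r ∈ Icc r0 r1, F r = l * g r := by
    intro r hr
    rw [hF]
    show l * SX k (projIcc r0 r1 h r) = l * g r
    rw [projIcc_of_mem h hr, hgX]
  have hg1 : g r1 = 0 := by
    rw [hg, ← O.zero k]
    apply intervalIntegral.integral_congr
    intro s hs
    rw [uIcc_of_le h] at hs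
    show qq d s * Φ s = qq d s * flx k s
    rw [hflx s hs]
  have hg0 : g r0 = 0 := intervalIntegral.integral_same
  set β : ℝ := ((d : ℝ) - 1) / 2 with hβ
  have hpow : ∀ r : ℝ, 0 < r → HasDerivAt (fun r : ℝ => r ^ β) (β * (r ^ β / r)) r := by
    intro r hr
    have := Real.hasDerivAt_rpow_const (p := β) (Or.inl hr.ne')
    rw [Real.rpow_sub_one hr.ne'] at this
    exact this
  have hw : ∀ r, r0 ≤ r → HasDerivAt (fun r => r ^ β * (l * g r))
      (β * (r ^ β / r) * (l * g r) + r ^ β * (l * (qq d r * Φ r))) r := by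
    intro r hr
    exact (hpow r (h0.trans_le hr)).mul ((hgd r hr).const_mul l)
  have hw' : ∀ r, r0 ≤ r → HasDerivAt (fun r => β * (r ^ β / r) * (l * g r) +
      r ^ β * (l * (qq d r * Φ r)))
      ((β * ((β * (r ^ β / r) * r - r ^ β * 1) / r ^ 2) * (l * g r) +
        β * (r ^ β / r) * (l * (qq d r * Φ r))) +
       (β * (r ^ β / r) * (l * (qq d r * Φ r)) +
        r ^ β * (l * (-((d : ℝ) - 1) / r * qq d r * Φ r +
          qq d r * (-(sg d * (r ^ (d - 1) * F r))))))) r := by
    intro r hr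
    have hr0 : 0 < r := h0.trans_le hr
    have a1 := (((hpow r hr0).div (hasDerivAt_id r) hr0.ne').const_mul β).mul
      ((hgd r hr).const_mul l)
    have a2 := (hpow r hr0).mul (((hasDerivAt_qq d hd hsg r hr0).mul (hΦd r)).const_mul l)
    exact a1.add a2
  refine ⟨fun r => r ^ β * (l * g r), fun r => β * (r ^ β / r) * (l * g r) +
      r ^ β * (l * (qq d r * Φ r)), ⟨?_, ?_, ?_, ?_, ?_⟩, ?_, ?_⟩
  · intro r hr
    exact (hw r hr.1).continuousAt.continuousWithinAt
  · intro r hr
    exact (hw' r hr.1).continuousAt.continuousWithinAt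
  · intro r hr
    exact hw r hr.1.le
  · intro r hr
    have hr0 : 0 < r := h0.trans hr.1
    have hne : sg d * r ^ (d - 1) ≠ 0 := by positivity
    have e1 : qq d r * (sg d * (r ^ (d - 1) * F r)) = l * g r := by
      rw [← hFg r ⟨hr.1.le, hr.2.le⟩, qq]
      field_simp
    have e2 : (d : ℝ) = 2 * β + 1 := by rw [hβ]; ring
    have h2 := hw' r hr.1.le
    have e3 : (((d : ℝ) - 1) * (d - 3) / 4 / r ^ 2 - l) * (r ^ β * (l * g r)) =
      ((β * ((β * (r ^ β / r) * r - r ^ β * 1) / r ^ 2) * (l * g r) +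
        β * (r ^ β / r) * (l * (qq d r * Φ r))) +
       (β * (r ^ β / r) * (l * (qq d r * Φ r)) +
        r ^ β * (l * (-((d : ℝ) - 1) / r * qq d r * Φ r +
          qq d r * (-(sg d * (r ^ (d - 1) * F r))))))) := by
      have e4 : qq d r * (-(sg d * (r ^ (d - 1) * F r))) = -(l * g r) := by
        rw [mul_neg, e1]
      rw [e4, e2]
      field_simp
      ring
    rw [e3]
    exact h2
  · show r0 ^ β * (l * g r0) = 0
    rw [hg0, mul_zero, mul_zero]
  · show r1 ^ β * (l * g r1) = 0
    rw [hg1, mul_zero, mul_zero]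
  · intro r
    show (r : ℝ) ^ β * (l * g r) = (r : ℝ) ^ β * (l * SX k r)
    rw [hgX]

end Pool.Agent.BE01.H19
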